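import Pool.Agent.Work.MP_b5407d_lbm.Interface

set_option autoImplicit false

open MeasureTheory Set Filter Topology

namespace Pool.LBM

namespace LE

/-- the identification of the Euclidean plane with `ℝ × ℝ` -/
noncomputable def eq2 : E2 ≃L[ℝ] R2 :=
  (EuclideanSpace.equiv (Fin 2) ℝ).trans (ContinuousLinearEquiv.finTwoArrow ℝ ℝ)

theorem eq2_apply (x : E2) : eq2 x = (x 0, x 1) := rfl

theorem eq2_mp : MeasurePreserving (eq2 : E2 → R2) volume volume :=
  (volume_preserving_finTwoArrow ℝ).comp (PiLp.volume_preserving_ofLp (Fin 2))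

theorem eq2_emb : MeasurableEmbedding (eq2 : E2 → R2) :=
  eq2.toHomeomorph.measurableEmbedding

theorem pre_image (K : Set E2) : (eq2 : E2 → R2) ⁻¹' (eq2 '' K) = K :=
  Set.preimage_image_eq K eq2.injective

theorem vol_pre (S : Set R2) : volume ((eq2 : E2 → R2) ⁻¹' S) = volume S :=
  eq2_mp.measure_preimage_emb eq2_emb S

theorem vol_image (K : Set E2) : volume ((eq2 : E2 → R2) '' K) = volume K := by
  rw [← vol_pre, pre_image]

theorem int_image (K : Set E2) (g : R2 → ℝ) :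
    ∫ x in (eq2 : E2 → R2) '' K, g x = ∫ x in K, g (eq2 x) := by
  have h := eq2_mp.setIntegral_preimage_emb eq2_emb g (eq2 '' K)
  rw [pre_image] at h
  exact h.symm

theorem bar_coord {K : Set E2} (hK : IsCompact K) (h0 : (∫ x in K, x) = 0) (i : Fin 2) :
    (∫ x in K, x i) = 0 := by
  have hint : IntegrableOn (fun x : E2 => x) K volume := continuous_id.continuousOn.integrableOn_compact hK
  have h := (EuclideanSpace.proj (𝕜 := ℝ) i).integral_comp_comm hint
  rw [h0, map_zero] at h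
  exact h

theorem inner_eq2 (x : E2) (φ : ℝ) :
    dt (Real.cos φ, Real.sin φ) (eq2 x) = inner ℝ x (WithLp.toLp 2 ![Real.cos φ, Real.sin φ] : E2) := by
  rw [eq2_apply, PiLp.inner_apply, Fin.sum_univ_two]
  simp [dt]

theorem sp_image (K : Set E2) (φ : ℝ) :
    sp (eq2 '' K) φ = hE K (WithLp.toLp 2 ![Real.cos φ, Real.sin φ] : E2) := by
  rw [sp, hE, Set.image_image]
  congr 1
  refine Set.image_congr fun x _ => ?_
  exact inner_eq2 x φ

theorem unit_mem (φ : ℝ) :
    (WithLp.toLp 2 ![Real.cos φ, Real.sin φ] : E2) ∈ Metric.sphere (0 : E2) 1 := by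
  rw [mem_sphere_zero_iff_norm, EuclideanSpace.norm_eq, Fin.sum_univ_two]
  simp

theorem unit_surj {u : E2} (hu : u ∈ Metric.sphere (0 : E2) 1) :
    ∃ φ : ℝ, u = (WithLp.toLp 2 ![Real.cos φ, Real.sin φ] : E2) := by
  rw [mem_sphere_zero_iff_norm, EuclideanSpace.norm_eq, Fin.sum_univ_two] at hu
  have h1 : u 0 ^ 2 + u 1 ^ 2 = 1 := by
    have h2 := Real.sqrt_eq_one.1 hu
    simpa using h2
  have h3 : ‖(⟨u 0, u 1⟩ : ℂ)‖ = 1 := by
    rw [Complex.norm_eq_sqrt_sq_add_sq, h1, Real.sqrt_one]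
  refine ⟨Complex.arg ⟨u 0, u 1⟩, ?_⟩
  have h4 := Complex.norm_mul_cos_arg ⟨u 0, u 1⟩
  have h5 := Complex.norm_mul_sin_arg ⟨u 0, u 1⟩
  rw [h3, one_mul] at h4 h5
  ext i
  fin_cases i
  · simpa using h4.symm
  · simpa using h5.symm

end LE

theorem blk_LE : Stmt_LB → Stmt_LE := by
  intro hLB hPOS K C hK1 hK2 hK3 hC1 hC2 hC3 hK0 hC0 t ht
  have hint : ∀ K : Set E2, (interior K).Nonempty → (interior (LE.eq2 '' K)).Nonempty := by
    intro K h
    have h1 : interior (LE.eq2 '' K) = LE.eq2 '' interior K :=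
      (LE.eq2.toHomeomorph.image_interior K).symm
    rw [h1]
    exact h.image _
  have hbar : ∀ K : Set E2, IsCompact K → (∫ x in K, x) = 0 →
      (∫ x in (LE.eq2 : E2 → R2) '' K, x.1) = 0 ∧ (∫ x in (LE.eq2 : E2 → R2) '' K, x.2) = 0 := by
    intro K hK h0
    rw [LE.int_image, LE.int_image]
    exact ⟨LE.bar_coord hK h0 0, LE.bar_coord hK h0 1⟩
  have h := hLB hPOS (LE.eq2 '' K) (LE.eq2 '' C)
    (hK1.linear_image LE.eq2.toLinearEquiv.toLinearMap) (hK2.image LE.eq2.continuous) (hint K hK3)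
    (hC1.linear_image LE.eq2.toLinearEquiv.toLinearMap) (hC2.image LE.eq2.continuous) (hint C hC3)
    (hbar K hK2 hK0).1 (hbar K hK2 hK0).2 (hbar C hC2 hC0).1 (hbar C hC2 hC0).2 t ht
  rw [LE.vol_image, LE.vol_image] at h
  refine h.trans (le_of_eq ?_)
  congr 1
  rw [← LE.vol_pre]
  congr 1
  ext x
  constructor
  · intro hx u hu
    obtain ⟨φ, rfl⟩ := LE.unit_surj hu
    have h1 := hx φ
    rw [LE.inner_eq2, LE.sp_image, LE.sp_image] at h1
    exact h1
  · intro hx φ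
    rw [LE.inner_eq2, LE.sp_image, LE.sp_image]
    exact hx _ (LE.unit_mem φ)

end Pool.LBM
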